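import Mathlib

/-!
# MP_4e2f3e_nt: sumsets in `ℤ/N` whose complement has no long progression

For every `η > 0` and every large prime `N` there is `A ⊆ ℤ/N` with `|A| > N/4`,
`|A + A| ≤ 99N/100` and such that every arithmetic progression contained in the complement
of `A + A` has length at most `N ^ η`.

Construction: write `N = 20 t + ρ` with `0 ≤ ρ < 20`.  Let `Y` be the set of integers `y < D ^ m`
none of whose `m` digits in base `D` is equal to `D - 1` (with `m` fixed and `D ^ m` about `t`), put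
`V = (18 t - 1) + Y` and `A = {x < 9 t : x + (15 t - 1) ∉ V} ∪ {15 t - 1}`.  Then the complement of
`A + A` is exactly `V`, and a progression inside `Y` has at most `D ^ 2` terms.
-/

set_option autoImplicit false
open Finset
open scoped Pointwise

namespace Pool.Agent.Results.MP_4e2f3e_nt.SparseComplement

/-- the integers below `D ^ m` with no base `D` digit equal to `D - 1` -/
def Y (D m : ℕ) : Finset ℕ := (range (D ^ m)).filter (fun y => ∀ i < m, (y / D ^ i) % D ≠ D - 1)

lemma card_Y (D : ℕ) (hD : 2 ≤ D) : ∀ m : ℕ, (D - 1) ^ m ≤ (Y D m).card := by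
  intro m
  induction m with
  | zero =>
    simp [Y]
  | succ m ih =>
    have hinj : Set.InjOn (fun p : ℕ × ℕ => p.1 + D * p.2)
        (((range (D - 1)) ×ˢ (Y D m) : Finset (ℕ × ℕ)) : Set (ℕ × ℕ)) := by
      rintro ⟨c, y⟩ h1 ⟨c', y'⟩ h2 h
      simp only [coe_product, Set.mem_prod, mem_coe, mem_range] at h1 h2
      simp only at h
      have hc : c < D := by omega
      have hc' : c' < D := by omega
      have e1 : (c + D * y) % D = c := by rw [Nat.add_mul_mod_self_left, Nat.mod_eq_of_lt hc]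
      have e2 : (c' + D * y') % D = c' := by rw [Nat.add_mul_mod_self_left, Nat.mod_eq_of_lt hc']
      have e3 : c = c' := by rw [← e1, ← e2, h]
      subst e3
      have e4 : D * y = D * y' := by omega
      have e5 : y = y' := Nat.eq_of_mul_eq_mul_left (by omega) e4
      rw [e5]
    have himg : ((range (D - 1)) ×ˢ (Y D m)).image (fun p : ℕ × ℕ => p.1 + D * p.2) ⊆
        Y D (m + 1) := by
      intro z hz
      simp only [mem_image, mem_product, mem_range, Prod.exists] at hz
      obtain ⟨c, y, ⟨hc, hy⟩, rfl⟩ := hz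
      simp only [Y, mem_filter, mem_range] at hy ⊢
      obtain ⟨hy1, hy2⟩ := hy
      refine ⟨?_, ?_⟩
      · have : y + 1 ≤ D ^ m := hy1
        calc c + D * y < D + D * y := by omega
          _ = D * (y + 1) := by ring
          _ ≤ D * D ^ m := Nat.mul_le_mul_left _ this
          _ = D ^ (m + 1) := by ring
      · intro i hi
        rcases i with _ | i
        · rw [pow_zero, Nat.div_one, Nat.add_mul_mod_self_left, Nat.mod_eq_of_lt (by omega)]
          omega
        · have hD0 : 0 < D := by omega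
          have e1 : (c + D * y) / D ^ (i + 1) = y / D ^ i := by
            rw [pow_succ', ← Nat.div_div_eq_div_mul, Nat.add_mul_div_left _ _ hD0,
              Nat.div_eq_of_lt (by omega : c < D), zero_add]
          rw [e1]
          exact hy2 i (by omega)
    calc (D - 1) ^ (m + 1) = (D - 1) * (D - 1) ^ m := by ring
      _ ≤ (D - 1) * (Y D m).card := Nat.mul_le_mul_left _ ih
      _ = ((range (D - 1)) ×ˢ (Y D m)).card := by rw [card_product, card_range]
      _ = (((range (D - 1)) ×ˢ (Y D m)).image (fun p : ℕ × ℕ => p.1 + D * p.2)).card :=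
          (card_image_of_injOn hinj).symm
      _ ≤ _ := card_le_card himg

/-- a progression with positive difference inside `Y D m` has at most `D ^ 2` terms -/
lemma ap_Y (D m : ℕ) (hD : 2 ≤ D) (x d k : ℕ) (hd : 0 < d)
    (h : ∀ j < k, x + j * d ∈ Y D m) : k ≤ D ^ 2 := by
  by_contra hk
  push Not at hk
  have hlt : ∀ j < k, x + j * d < D ^ m := fun j hj => by
    have := h j hj
    simp only [Y, mem_filter, mem_range] at this
    exact this.1
  have hgood : ∀ j < k, ∀ i < m, ((x + j * d) / D ^ i) % D ≠ D - 1 := fun j hj => by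
    have := h j hj
    simp only [Y, mem_filter, mem_range] at this
    exact this.2
  -- the exponent
  set i := Nat.log D d with hi
  have h1 : D ^ i ≤ d := Nat.pow_log_le_self D (by omega)
  have h2 : d < D ^ (i + 1) := Nat.lt_pow_succ_log_self (by omega) d
  set b := D ^ (i + 1) with hb
  have hb0 : 0 < b := by positivity
  have h3 : D * b ≤ D ^ 2 * d := by
    calc D * b = D ^ 2 * D ^ i := by rw [hb]; ring
      _ ≤ D ^ 2 * d := Nat.mul_le_mul_left _ h1
  have h4 : D * b < D ^ m := by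
    have := hlt (D ^ 2) hk
    omega
  have h5 : i + 1 < m := by
    have h6 : D ^ (i + 2) < D ^ m := by
      calc D ^ (i + 2) = D * b := by rw [hb]; ring
        _ < D ^ m := h4
    have := (Nat.pow_lt_pow_iff_right (by omega : 1 < D)).1 h6
    omega
  -- quotients
  have hq : ∀ j, (x + (j + 1) * d) / b ≤ (x + j * d) / b + 1 := by
    intro j
    have : x + (j + 1) * d ≤ (x + j * d) + b := by
      have : (j + 1) * d = j * d + d := by ring
      omega
    calc (x + (j + 1) * d) / b ≤ ((x + j * d) + b) / b := Nat.div_le_div_right this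
      _ = (x + j * d) / b + 1 := by rw [Nat.add_div_right _ hb0]
  -- intermediate values
  have hiv : ∀ n, ∀ v, x / b ≤ v → v ≤ (x + n * d) / b → ∃ j ≤ n, (x + j * d) / b = v := by
    intro n
    induction n with
    | zero =>
      intro v hv1 hv2
      refine ⟨0, le_rfl, ?_⟩
      simp only [zero_mul, add_zero] at hv2 ⊢
      omega
    | succ n ih =>
      intro v hv1 hv2
      by_cases hv : v ≤ (x + n * d) / b
      · obtain ⟨j, hj, hj'⟩ := ih v hv1 hv
        exact ⟨j, by omega, hj'⟩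
      · refine ⟨n + 1, le_rfl, ?_⟩
        have := hq n
        omega
  have hlast : x / b + D ≤ (x + D ^ 2 * d) / b := by
    calc x / b + D = (x + D * b) / b := by rw [Nat.add_mul_div_right _ _ hb0]
      _ ≤ (x + D ^ 2 * d) / b := Nat.div_le_div_right (by omega)
  -- a value congruent to `D - 1`
  obtain ⟨v, hv1, hv2, hv3⟩ : ∃ v, x / b ≤ v ∧ v ≤ x / b + D ∧ v % D = D - 1 := by
    refine ⟨x / b + (D - 1 - (x / b) % D), by omega, by omega, ?_⟩
    have h7 : (x / b) % D < D := Nat.mod_lt _ (by omega)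
    have h8 : x / b + (D - 1 - (x / b) % D) = (D - 1) + D * ((x / b) / D) := by
      have := Nat.mod_add_div (x / b) D
      omega
    rw [h8, Nat.add_mul_mod_self_left, Nat.mod_eq_of_lt (by omega)]
  obtain ⟨j, hj, hj'⟩ := hiv (D ^ 2) v hv1 (hv2.trans hlast)
  exact hgood j (by omega) (i + 1) h5 (by rw [← hb, hj']; exact hv3)

/-- integer version, both signs of the difference -/
lemma ap_int (D m : ℕ) (hD : 2 ≤ D) (c : ℤ) (x δ : ℤ) (k : ℕ) (hδ : δ ≠ 0)
    (h : ∀ j : ℕ, j < k → ∃ y ∈ Y D m, x + j * δ = c + y) : k ≤ D ^ 2 := by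
  rcases Nat.eq_zero_or_pos k with hk | hk
  · omega
  choose! y hy hxy using h
  rcases lt_or_gt_of_ne hδ with hneg | hpos
  · refine ap_Y D m hD (y (k - 1)) (-δ).toNat k (by omega) ?_
    intro j hj
    have h1 := hxy (k - 1) (by omega)
    have h2 := hxy (k - 1 - j) (by omega)
    have h3 : y (k - 1 - j) = y (k - 1) + j * (-δ).toNat := by
      have h4 : (((-δ).toNat : ℕ) : ℤ) = -δ := Int.toNat_of_nonneg (by omega)
      have h5 : ((k - 1 - j : ℕ) : ℤ) = ((k - 1 : ℕ) : ℤ) - j := by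
        rw [Nat.cast_sub (by omega)]
      have h6 : ((y (k - 1 - j) : ℕ) : ℤ) = ((y (k - 1) + j * (-δ).toNat : ℕ) : ℤ) := by
        rw [h5] at h2
        push_cast
        rw [h4]
        linarith
      exact_mod_cast h6
    rw [← h3]
    exact hy _ (by omega)
  · refine ap_Y D m hD (y 0) δ.toNat k (by omega) ?_
    intro j hj
    have h1 := hxy 0 hk
    have h2 := hxy j hj
    have h3 : y j = y 0 + j * δ.toNat := by
      have h4 : ((δ.toNat : ℕ) : ℤ) = δ := Int.toNat_of_nonneg (by omega)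
      have h6 : ((y j : ℕ) : ℤ) = ((y 0 + j * δ.toNat : ℕ) : ℤ) := by
        push_cast at h1 ⊢
        rw [h4]
        linarith
      exact_mod_cast h6
    rw [← h3]
    exact hy _ hj

/-- `V` -/
def V (D m t : ℕ) : Finset ℕ := (Y D m).image (fun y => 18 * t - 1 + y)

/-- the set of representatives of `A` -/
def A0 (D m t : ℕ) : Finset ℕ := (range (9 * t)).filter (fun x => x + (15 * t - 1) ∉ V D m t)

lemma mem_V {D m t v : ℕ} : v ∈ V D m t ↔ ∃ y ∈ Y D m, 18 * t - 1 + y = v := by
  simp [V]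

lemma V_bounds {D m t v : ℕ} (hDm : D ^ m ≤ t) (hv : v ∈ V D m t) :
    18 * t - 1 ≤ v ∧ v < 18 * t - 1 + t := by
  rw [mem_V] at hv
  obtain ⟨y, hy, rfl⟩ := hv
  simp only [Y, mem_filter, mem_range] at hy
  omega

section main

variable (N D m t : ℕ) [NeZero N]

/-- the set `A` in `ℤ/N` -/
def A : Finset (ZMod N) :=
  insert (((15 * t - 1 : ℕ) : ZMod N)) ((A0 D m t).image (fun x : ℕ => (x : ZMod N)))

variable {N D m t}

omit [NeZero N] in
lemma cast_eq {a b : ℕ} (ha : a < N) (hb : b < N) (h : (a : ZMod N) = b) : a = b := by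
  rw [ZMod.natCast_eq_natCast_iff] at h
  exact Nat.ModEq.eq_of_lt_of_lt h ha hb

lemma mem_A0_of (hDm : D ^ m ≤ t) {x : ℕ} (hx : x < 3 * t ∨ (4 * t ≤ x ∧ x < 9 * t)) :
    x ∈ A0 D m t := by
  simp only [A0, mem_filter, mem_range]
  refine ⟨by omega, fun h => ?_⟩
  have := V_bounds hDm h
  omega

lemma sum_mem (hDm : D ^ m ≤ t) (ht : 1 ≤ t) {z : ℕ} (hz : z ≤ 18 * t - 2) :
    ∃ x ∈ A0 D m t, ∃ y ∈ A0 D m t, x + y = z := by
  by_cases h1 : z ≤ 6 * t - 2
  · by_cases h2 : z < 3 * t
    · exact ⟨z, mem_A0_of hDm (by omega), 0, mem_A0_of hDm (by omega), by omega⟩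
    · exact ⟨3 * t - 1, mem_A0_of hDm (by omega), z - (3 * t - 1), mem_A0_of hDm (by omega),
        by omega⟩
  · by_cases h2 : z < 12 * t - 1
    · by_cases h3 : z < 9 * t
      · exact ⟨z, mem_A0_of hDm (by omega), 0, mem_A0_of hDm (by omega), by omega⟩
      · exact ⟨9 * t - 1, mem_A0_of hDm (by omega), z - (9 * t - 1), mem_A0_of hDm (by omega),
          by omega⟩
    · by_cases h3 : z < 14 * t
      · exact ⟨5 * t, mem_A0_of hDm (by omega), z - 5 * t, mem_A0_of hDm (by omega), by omega⟩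
      · exact ⟨9 * t - 1, mem_A0_of hDm (by omega), z - (9 * t - 1), mem_A0_of hDm (by omega),
          by omega⟩

omit [NeZero N] in
lemma mem_sum (hDm : D ^ m ≤ t) (ht : 20 ≤ t) (hN1 : 20 * t ≤ N) (hN2 : N < 20 * t + 20)
    {z : ℕ} (hz : z < N) (hzV : z ∉ V D m t) : (z : ZMod N) ∈ A N D m t + A N D m t := by
  rw [mem_add]
  by_cases h1 : z ≤ 18 * t - 2
  · obtain ⟨x, hx, y, hy, hxy⟩ := sum_mem hDm (by omega) h1
    refine ⟨x, ?_, y, ?_, ?_⟩
    · exact mem_insert_of_mem (mem_image_of_mem _ hx)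
    · exact mem_insert_of_mem (mem_image_of_mem _ hy)
    · rw [← hxy]; push_cast; rfl
  · refine ⟨((z - (15 * t - 1) : ℕ) : ZMod N), ?_, ((15 * t - 1 : ℕ) : ZMod N), ?_, ?_⟩
    · refine mem_insert_of_mem (mem_image_of_mem _ ?_)
      simp only [A0, mem_filter, mem_range]
      refine ⟨by omega, ?_⟩
      rwa [Nat.sub_add_cancel (by omega)]
    · exact mem_insert_self _ _
    · rw [← Nat.cast_add, Nat.sub_add_cancel (by omega)]

omit [NeZero N] in
lemma not_mem_sum (hDm : D ^ m ≤ t) (ht : 20 ≤ t) (hN1 : 20 * t ≤ N)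
    {z : ℕ} (hzV : z ∈ V D m t) : (z : ZMod N) ∉ A N D m t + A N D m t := by
  have hz := V_bounds hDm hzV
  rw [mem_add]
  rintro ⟨a, ha, b, hb, hab⟩
  have key : ∀ x y : ℕ, (x < 9 * t ∧ x + (15 * t - 1) ∉ V D m t ∨ x = 15 * t - 1) →
      (y < 9 * t ∧ y + (15 * t - 1) ∉ V D m t ∨ y = 15 * t - 1) →
      ((x : ZMod N) + y = z) → False := by
    intro x y hx hy hxy
    rw [← Nat.cast_add, ZMod.natCast_eq_natCast_iff'] at hxy
    rw [Nat.mod_eq_of_lt (by omega : z < N)] at hxy
    have hcase : x + y = z ∨ N + z ≤ x + y := by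
      by_cases h : x + y < N
      · left
        rwa [Nat.mod_eq_of_lt h] at hxy
      · right
        have h1 := Nat.mod_add_div (x + y) N
        have h2 : 1 ≤ (x + y) / N := (Nat.one_le_div_iff (by omega)).2 (by omega)
        have h3 : N ≤ N * ((x + y) / N) := Nat.le_mul_of_pos_right _ (by omega)
        omega
    rcases hcase with h | h
    · rcases hx with ⟨hx1, hx2⟩ | hx
      · rcases hy with ⟨hy1, hy2⟩ | hy
        · omega
        · apply hx2
          rw [← hy, h]
          exact hzV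
      · rcases hy with ⟨hy1, hy2⟩ | hy
        · apply hy2
          rw [← hx, add_comm, h]
          exact hzV
        · omega
    · omega
  have hA : ∀ a ∈ A N D m t, ∃ x : ℕ, (x < 9 * t ∧ x + (15 * t - 1) ∉ V D m t ∨
      x = 15 * t - 1) ∧ (x : ZMod N) = a := by
    intro a ha
    simp only [A, mem_insert, mem_image, A0, mem_filter, mem_range] at ha
    rcases ha with rfl | ⟨x, hx, rfl⟩
    · exact ⟨15 * t - 1, Or.inr rfl, rfl⟩
    · exact ⟨x, Or.inl hx, rfl⟩
  obtain ⟨x, hx, rfl⟩ := hA a ha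
  obtain ⟨y, hy, rfl⟩ := hA b hb
  exact key x y hx hy hab

lemma compl_eq (hDm : D ^ m ≤ t) (ht : 20 ≤ t) (hN1 : 20 * t ≤ N) (hN2 : N < 20 * t + 20) :
    (A N D m t + A N D m t)ᶜ = (V D m t).image (fun x : ℕ => (x : ZMod N)) := by
  ext z
  rw [mem_compl, mem_image]
  constructor
  · intro hz
    refine ⟨z.val, ?_, ZMod.natCast_zmod_val z⟩
    by_contra hzV
    apply hz
    have := mem_sum (N := N) hDm ht hN1 hN2 (ZMod.val_lt z) hzV
    rwa [ZMod.natCast_zmod_val] at this
  · rintro ⟨x, hx, rfl⟩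
    exact not_mem_sum hDm ht hN1 hx

omit [NeZero N] in
lemma card_A (hDm : D ^ m ≤ t) (ht : 20 ≤ t) (hN1 : 20 * t ≤ N) :
    8 * t ≤ (A N D m t).card := by
  have h1 : ((A0 D m t).image (fun x : ℕ => (x : ZMod N))).card = (A0 D m t).card := by
    apply card_image_of_injOn
    intro a ha b hb hab
    simp only [A0, coe_filter, mem_range, Set.mem_ofPred_eq] at ha hb
    exact cast_eq (by omega) (by omega) hab
  have h2 : ((range (9 * t)).filter (fun x => x < 3 * t ∨ 4 * t ≤ x)) ⊆ A0 D m t := by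
    intro x hx
    simp only [mem_filter, mem_range] at hx
    exact mem_A0_of hDm (by omega)
  have h3 : 8 * t ≤ ((range (9 * t)).filter (fun x => x < 3 * t ∨ 4 * t ≤ x)).card := by
    have h4 : range (3 * t) ∪ Ico (4 * t) (9 * t) ⊆
        (range (9 * t)).filter (fun x => x < 3 * t ∨ 4 * t ≤ x) := by
      intro x hx
      simp only [mem_union, mem_range, mem_Ico] at hx
      simp only [mem_filter, mem_range]
      omega
    have h5 := card_le_card h4
    rw [card_union_of_disjoint, card_range, Nat.card_Ico] at h5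
    · omega
    · rw [disjoint_left]
      intro x hx hx'
      simp only [mem_range, mem_Ico] at hx hx'
      omega
  calc 8 * t ≤ (A0 D m t).card := h3.trans (card_le_card h2)
    _ = _ := h1.symm
    _ ≤ _ := card_le_card (subset_insert _ _)

lemma card_V : (V D m t).card = (Y D m).card := by
  apply card_image_of_injOn
  intro a _ b _ hab
  simp only at hab
  omega

lemma ap_bound (hD : 2 ≤ D) (hDm : D ^ m ≤ t) (ht : 20 ≤ t) (hN1 : 20 * t ≤ N)
    (hN2 : N < 20 * t + 20) (a d : ZMod N) (k : ℕ) (hd : d ≠ 0)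
    (h : ∀ j : ℕ, j < k → a + j • d ∈ (A N D m t + A N D m t)ᶜ) : k ≤ D ^ 2 := by
  rcases Nat.lt_or_ge k 2 with hk | hk
  · calc k ≤ 1 := by omega
      _ ≤ D ^ 2 := Nat.one_le_pow _ _ (by omega)
  rw [compl_eq hDm ht hN1 hN2] at h
  have h' : ∀ j : ℕ, j < k → ∃ v ∈ V D m t, (v : ZMod N) = a + j • d := by
    intro j hj
    have := h j hj
    rw [mem_image] at this
    exact this
  choose! v hv hva using h'
  -- consecutive differences
  have hcong : ∀ j, j + 1 < k → (((v (j + 1) : ℤ) - v j : ℤ) : ZMod N) = d := by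
    intro j hj
    push_cast
    rw [hva (j + 1) hj, hva j (by omega)]
    rw [add_smul, one_smul]
    abel
  have hb : ∀ j, j < k → (18 * (t:ℤ) - 1 ≤ v j ∧ (v j : ℤ) < 18 * t - 1 + t) := by
    intro j hj
    have := V_bounds hDm (hv j hj)
    omega
  set δ : ℤ := (v 1 : ℤ) - v 0 with hδ
  have hδ0 : δ ≠ 0 := by
    intro h0
    apply hd
    have := hcong 0 (by omega)
    rw [← this]
    simp only [zero_add]
    rw [← hδ, h0]
    simp
  have hconst : ∀ j, j + 1 < k → (v (j + 1) : ℤ) - v j = δ := by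
    intro j hj
    have h1 := hcong j hj
    have h2 := hcong 0 (by omega)
    rw [zero_add, ← hδ] at h2
    rw [← h2, ZMod.intCast_eq_intCast_iff] at h1
    have h3 := hb j (by omega)
    have h4 := hb (j + 1) hj
    have h5 := hb 0 (by omega)
    have h6 := hb 1 (by omega)
    have h7 : (N : ℤ) ∣ (((v (j + 1) : ℤ) - v j) - δ) := (Int.modEq_iff_dvd.1 h1.symm)
    have h8 : |(((v (j + 1) : ℤ) - v j) - δ)| < N := by
      rw [abs_lt, hδ]
      constructor <;> omega
    have h9 := Int.eq_zero_of_abs_lt_dvd h7 h8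
    omega
  have hlin : ∀ j : ℕ, j < k → (v j : ℤ) = v 0 + j * δ := by
    intro j
    induction j with
    | zero => intro _; simp
    | succ j ih =>
      intro hj
      have h1 := ih (by omega)
      have h2 := hconst j hj
      push_cast
      linarith
  refine ap_int D m hD (18 * t - 1) (v 0) δ k hδ0 ?_
  intro j hj
  have h1 := hv j hj
  rw [mem_V] at h1
  obtain ⟨y, hy, hy'⟩ := h1
  refine ⟨y, hy, ?_⟩
  rw [← hlin j hj, ← hy']
  push_cast [Nat.cast_sub (by omega : 1 ≤ 18 * t)]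
  ring

end main

/-- parameters -/
lemma params (m : ℕ) (hm : 1 ≤ m) (t : ℕ) (ht : (4 * m + 2) ^ m ≤ t) :
    ∃ D : ℕ, 2 ≤ D ∧ D ^ m ≤ t ∧ 3 * t ≤ 8 * (D - 1) ^ m := by
  -- the largest D with D ^ m ≤ t
  have hex : ∃ D, t < (D + 1) ^ m := by
    refine ⟨t, ?_⟩
    calc t < t + 1 := by omega
      _ = (t + 1) ^ 1 := by ring
      _ ≤ (t + 1) ^ m := Nat.pow_le_pow_right (by omega) hm
  classical
  set D := Nat.find hex with hDdef
  have h1 : t < (D + 1) ^ m := Nat.find_spec hex
  have h2 : ∀ D' < D, (D' + 1) ^ m ≤ t := fun D' h => by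
    have := Nat.find_min hex h
    omega
  have h3 : 4 * m + 1 < D := by
    by_contra hcon
    have : (D + 1) ^ m ≤ (4 * m + 2) ^ m := Nat.pow_le_pow_left (by omega) m
    omega
  have h4 : D ^ m ≤ t := by
    have := h2 (D - 1) (by omega)
    rwa [Nat.sub_add_cancel (by omega)] at this
  refine ⟨D, by omega, h4, ?_⟩
  -- (D-1)^m ≥ 3/8 (D+1)^m by Bernoulli
  have hDR : (4 * (m:ℝ) + 2) ≤ D := by exact_mod_cast (by omega : 4 * m + 2 ≤ D)
  have hm0 : (0:ℝ) ≤ m := Nat.cast_nonneg m
  have hD1 : (0:ℝ) < (D:ℝ) + 1 := by positivity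
  have hb := one_add_mul_le_pow (a := (-(2 / ((D:ℝ) + 1)))) (by
    rw [neg_le_neg_iff, div_le_iff₀ hD1]; nlinarith) m
  have h5 : (1:ℝ) / 2 ≤ 1 + m * (-(2 / ((D:ℝ) + 1))) := by
    have : (m:ℝ) * (2 / ((D:ℝ) + 1)) ≤ 1 / 2 := by
      rw [← mul_div_assoc, div_le_iff₀ hD1]
      linarith
    linarith
  have h6 : (1:ℝ) + -(2 / ((D:ℝ) + 1)) = ((D:ℝ) - 1) / (D + 1) := by
    field_simp
    ring
  rw [h6, div_pow] at hb
  have h7 : (1:ℝ) / 2 ≤ ((D:ℝ) - 1) ^ m / ((D:ℝ) + 1) ^ m := h5.trans hb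
  rw [le_div_iff₀ (by positivity)] at h7
  have h8 : (((D - 1 : ℕ) : ℝ)) = (D:ℝ) - 1 := by
    rw [Nat.cast_sub (by omega)]; simp
  have h9 : (t:ℝ) < ((D:ℝ) + 1) ^ m := by exact_mod_cast h1
  have h10 : (3 * (t:ℝ)) ≤ 8 * ((D - 1 : ℕ) : ℝ) ^ m := by
    rw [h8]
    have : (0:ℝ) ≤ (t:ℝ) := Nat.cast_nonneg t
    linarith
  exact_mod_cast h10

/-- **Theorem.** For every `η > 0` and every large prime `N` there is `A ⊆ ℤ/N` with `|A| > N / 4`
and `|A + A| ≤ 99 N / 100` such that every arithmetic progression `a, a + d, …, a + (k - 1) d`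
with `d ≠ 0` and `k ≤ N` terms contained in the complement of `A + A` satisfies `k ≤ N ^ η`. -/
theorem result : ∀ η : ℝ, 0 < η → ∃ N₀ : ℕ, ∀ N : ℕ, N₀ ≤ N → N.Prime →
    ∃ A : Set (ZMod N), (N : ℝ) / 4 < A.ncard ∧ ((A + A).ncard : ℝ) ≤ 99 / 100 * N ∧
      ∀ (a d : ZMod N) (k : ℕ), d ≠ 0 → k ≤ N →
        (∀ j : ℕ, j < k → a + j • d ∈ (A + A)ᶜ) → (k : ℝ) ≤ (N : ℝ) ^ η := by
  intro η hη
  obtain ⟨m, hm⟩ := exists_nat_ge (max 1 (2 / η))
  have hm1 : 1 ≤ m := by
    have : (1:ℝ) ≤ m := (le_max_left _ _).trans hm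
    exact_mod_cast this
  have hm2 : 2 / η ≤ m := (le_max_right _ _).trans hm
  refine ⟨20 * ((4 * m + 2) ^ m + 20), ?_⟩
  intro N hN hp
  have : NeZero N := ⟨hp.ne_zero⟩
  set t := N / 20 with ht
  have hN1 : 20 * t ≤ N := Nat.mul_div_le N 20
  have hN2 : N < 20 * t + 20 := by omega
  have ht1 : (4 * m + 2) ^ m + 20 ≤ t := by omega
  obtain ⟨D, hD, hDm, hDt⟩ := params m hm1 t (by omega)
  refine ⟨(A N D m t : Set (ZMod N)), ?_, ?_, ?_⟩
  · rw [Set.ncard_coe_finset]
    have h1 := card_A (N := N) hDm (by omega) hN1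
    have h2 : (8 * (t:ℝ)) ≤ ((A N D m t).card : ℝ) := by exact_mod_cast h1
    have h3 : (N:ℝ) < 20 * t + 20 := by exact_mod_cast hN2
    have h4 : (20:ℝ) ≤ t := by exact_mod_cast (by omega : 20 ≤ t)
    linarith
  · rw [← coe_add, Set.ncard_coe_finset]
    have h1 := compl_eq (N := N) hDm (by omega) hN1 hN2
    have h2 : ((V D m t).image (fun x : ℕ => (x : ZMod N))).card = (V D m t).card := by
      apply card_image_of_injOn
      intro a ha b hb hab
      have h3 := V_bounds hDm ha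
      have h4 := V_bounds hDm hb
      exact cast_eq (by omega) (by omega) hab
    have h3 := card_compl (A N D m t + A N D m t)
    rw [h1, h2, card_V, ZMod.card] at h3
    have h4 := card_Y D hD m
    have h5 : (A N D m t + A N D m t).card ≤ N := by
      have := card_le_univ (A N D m t + A N D m t)
      rwa [ZMod.card] at this
    have h6 : 8 * (A N D m t + A N D m t).card + 3 * t ≤ 8 * N := by omega
    have h7 : (8 * ((A N D m t + A N D m t).card : ℝ)) + 3 * t ≤ 8 * N := by exact_mod_cast h6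
    have h8 : (N:ℝ) < 20 * t + 20 := by exact_mod_cast hN2
    have h9 : (20:ℝ) ≤ t := by exact_mod_cast (by omega : 20 ≤ t)
    linarith
  · intro a d k hd hk h
    have h1 : k ≤ D ^ 2 := by
      refine ap_bound (N := N) (t := t) (m := m) hD hDm (by omega) hN1 hN2 a d k hd ?_
      intro j hj
      have := h j hj
      rw [← coe_add, ← coe_compl, mem_coe] at this
      exact this
    have hN0 : (1:ℝ) ≤ N := by exact_mod_cast hp.one_lt.le
    have hD0 : (0:ℝ) ≤ D := Nat.cast_nonneg D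
    have h2 : (D:ℝ) ^ m ≤ N := by
      have : D ^ m ≤ N := by omega
      exact_mod_cast this
    have hm0 : (0:ℝ) < m := by exact_mod_cast (by omega : 0 < m)
    have h3 : (D:ℝ) ≤ (N:ℝ) ^ (1 / (m:ℝ)) := by
      have h4 : ((D:ℝ) ^ m) ^ (1 / (m:ℝ)) = D := by
        rw [← Real.rpow_natCast, ← Real.rpow_mul hD0, mul_one_div_cancel hm0.ne', Real.rpow_one]
      rw [← h4]
      exact Real.rpow_le_rpow (by positivity) h2 (by positivity)
    calc (k:ℝ) ≤ ((D ^ 2 : ℕ) : ℝ) := by exact_mod_cast h1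
      _ = (D:ℝ) ^ 2 := by push_cast; ring
      _ ≤ ((N:ℝ) ^ (1 / (m:ℝ))) ^ 2 := by gcongr
      _ = (N:ℝ) ^ (2 / (m:ℝ)) := by
          rw [← Real.rpow_natCast, ← Real.rpow_mul (by positivity)]
          congr 1
          push_cast
          ring
      _ ≤ (N:ℝ) ^ η := by
          apply Real.rpow_le_rpow_of_exponent_le hN0
          rw [div_le_iff₀ hm0]
          rw [div_le_iff₀ hη] at hm2
          linarith

end Pool.Agent.Results.MP_4e2f3e_nt.SparseComplement
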